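import Pool.Agent.helper43.TG.Spec

set_option autoImplicit false

namespace Pool.Agent.helper43.TG

theorem t_grd : GRD := by
  intro V _ _ G _ d hd
  have key : ∀ W : Finset V, ∃ c : V → Fin (d + 1), ∀ x ∈ W, ∀ y ∈ W, G.Adj x y → c x ≠ c y := by
    intro W
    induction W using Finset.induction_on with
    | empty => exact ⟨fun _ => 0, by simp⟩
    | insert v W hv ih =>
      obtain ⟨c, hc⟩ := ih
      have h1 : ((Finset.univ.filter (fun u => G.Adj v u)).image c).card < (Finset.univ : Finset (Fin (d + 1))).card := by
        rw [Finset.card_univ, Fintype.card_fin]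
        exact Nat.lt_succ_of_le (Finset.card_image_le.trans (hd v))
      obtain ⟨g, _, hg⟩ := Finset.exists_mem_notMem_of_card_lt_card h1
      have hg2 : ∀ u, G.Adj v u → c u ≠ g := by
        intro u hu h
        exact hg (Finset.mem_image.2 ⟨u, Finset.mem_filter.2 ⟨Finset.mem_univ _, hu⟩, h⟩)
      refine ⟨Function.update c v g, ?_⟩
      intro x hx y hy hxy
      rcases Finset.mem_insert.1 hx with rfl | hx'
      · have hyx : y ≠ x := hxy.ne'
        rw [Function.update_self, Function.update_of_ne hyx]
        exact (hg2 y hxy).symm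
      · have hxv : x ≠ v := fun h => hv (h ▸ hx')
        rcases Finset.mem_insert.1 hy with rfl | hy'
        · rw [Function.update_self, Function.update_of_ne hxv]
          exact hg2 x hxy.symm
        · have hyv : y ≠ v := fun h => hv (h ▸ hy')
          rw [Function.update_of_ne hxv, Function.update_of_ne hyv]
          exact hc x hx' y hy' hxy
  obtain ⟨c, hc⟩ := key Finset.univ
  exact ⟨SimpleGraph.Coloring.mk c fun {x y} h => hc x (Finset.mem_univ _) y (Finset.mem_univ _) h⟩

end Pool.Agent.helper43.TG
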